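import Pool.Agent.Lib.MP_7f581e_ntS.PKerF

/-!
Products of a regular realization with a realization over the field of constants.
-/

set_option autoImplicit false

universe u v

namespace MP7fC

open Polynomial MP7fR

/-- A regular realization of `G` over `K` and a realization of `H` over `K` give a realization of
`G × H` over `K(X)`. -/
theorem occurs_prod {K : Type u} [Field K] {G H : Type} [Group G] [Group H]
    (hG : OccursRegularly G K) (hH : Occurs H K) : Occurs (G × H) (RatFunc K) := by
  classical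
  obtain ⟨L, _, _, hfd, hgal, ⟨e⟩, hreg⟩ := hG
  obtain ⟨M, _, _, hfdM, hgalM, ⟨e'⟩⟩ := hH
  let F := RatFunc K
  let Ω := SeparableClosure L
  let _ : Algebra F Ω := ((algebraMap L Ω).comp (algebraMap F L)).toAlgebra
  have t1 : IsScalarTower F L Ω := IsScalarTower.of_algebraMap_eq fun _ => rfl
  let _ : Algebra K Ω := ((algebraMap F Ω).comp (algebraMap K F)).toAlgebra
  have t2 : IsScalarTower K F Ω := IsScalarTower.of_algebraMap_eq fun _ => rfl
  let _ : Algebra K L := ((algebraMap F L).comp (algebraMap K F)).toAlgebra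
  have t3 : IsScalarTower K F L := IsScalarTower.of_algebraMap_eq fun _ => rfl
  have t4 : IsScalarTower K L Ω := IsScalarTower.of_algebraMap_eq fun _ => rfl
  have hk : ∀ y : L, IsIntegral K y → ∃ c : K, algebraMap K L c = y := by
    rintro y ⟨g, hg, hgy⟩
    exact hreg y ⟨g, hg.ne_zero, hgy⟩
  have hsepΩ : Algebra.IsSeparable F Ω := Algebra.IsSeparable.trans F L Ω
  have hclo : IsSepClosure F Ω := ⟨inferInstance, hsepΩ⟩
  have hgalΩ : IsGalois F Ω := inferInstance
  have hgalΩL : IsGalois L Ω := inferInstance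
  let i : M →ₐ[K] Ω := IsSepClosed.lift
  let _ : Algebra M Ω := i.toRingHom.toAlgebra
  have t5 : IsScalarTower K M Ω := IsScalarTower.of_algebraMap_eq fun x => (i.commutes x).symm
  let pb := Field.powerBasisOfFiniteOfSeparable K M
  let b : Ω := algebraMap M Ω pb.gen
  -- restriction to the constants
  let ρ : (Ω ≃ₐ[F] Ω) →* (Ω ≃ₐ[K] Ω) := MonoidHom.mk' (fun γ => γ.restrictScalars K) fun _ _ => rfl
  let rM : (Ω ≃ₐ[F] Ω) →* (M ≃ₐ[K] M) :=
    (AlgEquiv.restrictNormalHom (F := K) (K₁ := Ω) M).comp ρ
  have hrM : ∀ (γ : Ω ≃ₐ[F] Ω) (x : M), algebraMap M Ω (rM γ x) = γ (algebraMap M Ω x) :=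
    fun γ x => AlgEquiv.restrictNormal_commutes (γ.restrictScalars K) M x
  let rL : (Ω ≃ₐ[F] Ω) →* (L ≃ₐ[F] L) := AlgEquiv.restrictNormalHom (F := F) (K₁ := Ω) L
  have hrL : ∀ (γ : Ω ≃ₐ[F] Ω) (x : L), algebraMap L Ω (rL γ x) = γ (algebraMap L Ω x) :=
    fun γ x => AlgEquiv.restrictNormal_commutes γ L x
  have hMext : ∀ s s' : M ≃ₐ[K] M, s pb.gen = s' pb.gen → s = s' := by
    intro s s' h
    have h1 : (s : M →ₐ[K] M) = (s' : M →ₐ[K] M) := pb.algHom_ext h
    exact AlgEquiv.ext fun x => DFunLike.congr_fun h1 x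
  let Φ : (Ω ≃ₐ[F] Ω) →* G × H :=
    MonoidHom.prod (e.toMonoidHom.comp rL) (e'.toMonoidHom.comp rM)
  have hΦ : ∀ γ, Φ γ = (e (rL γ), e' (rM γ)) := fun _ => rfl
  have hkey : ∀ s : M ≃ₐ[K] M, ∃ δ : Ω ≃ₐ[F] Ω, rL δ = 1 ∧ rM δ = s := by
    intro s
    have hmin : minpoly L b = minpoly L (algebraMap M Ω (s pb.gen)) := by
      have hb : ∀ x : M, IsIntegral K (algebraMap M Ω x) := fun x =>
        (Algebra.IsIntegral.isIntegral (R := K) x).algebraMap
      rw [minpoly_eq_map hk b (hb _), minpoly_eq_map hk _ (hb _),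
        minpoly.algebraMap_eq (algebraMap M Ω).injective,
        minpoly.algebraMap_eq (algebraMap M Ω).injective]
      congr 1
      exact (minpoly.algEquiv_eq s pb.gen).symm
    obtain ⟨δ, hδ⟩ := (Normal.minpoly_eq_iff_mem_orbit (F := L) (E := Ω)).mp hmin.symm
    refine ⟨δ.restrictScalars F, ?_, ?_⟩
    · ext x
      apply (algebraMap L Ω).injective
      rw [hrL]
      exact δ.commutes x
    · apply hMext
      apply (algebraMap M Ω).injective
      rw [hrM]
      exact hδ
  have hsurj : Function.Surjective Φ := by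
    rintro ⟨g, h⟩
    obtain ⟨γ₀, hγ₀⟩ := AlgEquiv.restrictNormalHom_surjective (F := F) (K₁ := L) Ω (e.symm g)
    obtain ⟨δ, hδ1, hδ2⟩ := hkey ((rM γ₀)⁻¹ * e'.symm h)
    refine ⟨γ₀ * δ, ?_⟩
    rw [hΦ, map_mul rL, map_mul rM, hδ1, hδ2, mul_one, mul_inv_cancel_left]
    change (e (AlgEquiv.restrictNormalHom L γ₀), _) = _
    rw [hγ₀, MulEquiv.apply_symm_apply, MulEquiv.apply_symm_apply]
  have hfdL : FiniteDimensional F (IsScalarTower.toAlgHom F L Ω).fieldRange :=
    (AlgEquiv.ofInjectiveField (IsScalarTower.toAlgHom F L Ω)).toLinearEquiv.finiteDimensional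
  have hfdb : FiniteDimensional F (IntermediateField.adjoin F {b}) :=
    IntermediateField.adjoin.finiteDimensional (Algebra.IsIntegral.isIntegral b)
  refine MP7fS.occurs_of_hom Φ hsurj
    ((IsScalarTower.toAlgHom F L Ω).fieldRange ⊔ IntermediateField.adjoin F {b}) ?_
  rw [IntermediateField.fixingSubgroup_sup]
  ext γ
  rw [MonoidHom.mem_ker, Subgroup.mem_inf, hΦ, Prod.mk_eq_one, MulEquiv.map_eq_one_iff e,
    MulEquiv.map_eq_one_iff e']
  refine and_congr ?_ ?_
  · rw [IntermediateField.mem_fixingSubgroup_iff]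
    constructor
    · rintro h _ ⟨x, rfl⟩
      have h1 := hrL γ x
      rw [h] at h1
      exact h1.symm
    · intro h
      ext x
      apply (algebraMap L Ω).injective
      rw [hrL]
      exact h _ ⟨x, rfl⟩
  · constructor
    · intro h
      have h1 : IntermediateField.adjoin F {b} ≤
          IntermediateField.fixedField (Subgroup.zpowers γ) := by
        rw [IntermediateField.adjoin_le_iff]
        rintro _ rfl
        rintro ⟨δ, m, rfl⟩
        change (γ ^ m) b = b
        have h2 : γ ∈ MulAction.stabilizer (Ω ≃ₐ[F] Ω) b := by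
          change γ (algebraMap M Ω pb.gen) = algebraMap M Ω pb.gen
          rw [← hrM, h]
          rfl
        exact (MulAction.stabilizer (Ω ≃ₐ[F] Ω) b).zpow_mem h2 m
      exact (IntermediateField.le_iff_le _ _).mp h1 (Subgroup.mem_zpowers γ)
    · intro h
      apply hMext
      apply (algebraMap M Ω).injective
      rw [hrM]
      exact (IntermediateField.mem_fixingSubgroup_iff _ _).mp h b
        (IntermediateField.mem_adjoin_simple_self F b)

/-- Powers of a group occurring regularly over a perfect field occur over every Hilbertian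
extension. -/
theorem occurs_pow {k : Type u} [Field k] [PerfectField k] {G : Type} [Group G] [Finite G]
    (hG : OccursRegularly G k) {K : Type v} [Field K] [Algebra k K] (hK : IsHilbertian K)
    (m : ℕ) : Occurs (Fin m → G) K := by
  induction m with
  | zero =>
    refine ⟨K, inferInstance, inferInstance, inferInstance, inferInstance, ⟨?_⟩⟩
    have h1 : Subsingleton (K ≃ₐ[K] K) := ⟨fun f g => AlgEquiv.ext fun x => by
      rw [← Algebra.algebraMap_self_apply x, AlgEquiv.commutes, AlgEquiv.commutes]⟩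
    let _ : Unique (K ≃ₐ[K] K) := Unique.mk' _
    exact MulEquiv.ofUnique
  | succ m ih =>
    have h1 : Occurs (G × (Fin m → G)) (RatFunc K) :=
      occurs_prod (occursRegularly_baseChange hG) ih
    have h2 : Occurs (G × (Fin m → G)) K := occurs_of_isHilbertian hK h1
    refine MP7fS.occurs_congr ?_ h2
    exact
      { toFun := fun x => Fin.cons x.1 x.2
        invFun := fun x => (x 0, fun i => x i.succ)
        left_inv := fun x => rfl
        right_inv := fun x => by
          funext i
          refine Fin.cases rfl (fun i => rfl) i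
        map_mul' := fun x y => by
          funext i
          refine Fin.cases rfl (fun i => rfl) i }

end MP7fC
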