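import Pool.Agent.Lib.MP_7f581e_ntC.MinNormal

/-!
Groups with a subnormal series whose factors belong to a given class of simple groups.
-/

set_option autoImplicit false

namespace MP7fC

/-- `HasFactors 𝒮 G`: the group `G` has a finite subnormal series all of whose successive
quotients belong to the class `𝒮`. -/
inductive HasFactors (𝒮 : (S : Type) → [Group S] → Prop) : (G : Type) → [Group G] → Prop
  /-- the trivial group -/
  | triv (G : Type) [Group G] [Subsingleton G] : HasFactors 𝒮 G
  /-- an extension of a member of the class by a group with a series -/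
  | ext (G : Type) [Group G] (H : Subgroup G) [H.Normal] (h : HasFactors 𝒮 H)
      (hq : 𝒮 (G ⧸ H)) : HasFactors 𝒮 G

section

variable {𝒮 : (S : Type) → [Group S] → Prop}
  (hiso : ∀ (S T : Type) [Group S] [Group T], (S ≃* T) → 𝒮 S → 𝒮 T)
  (hsim : ∀ (S : Type) [Group S], 𝒮 S → IsSimpleGroup S)

include hiso hsim

theorem HasFactors.of_injective {G : Type} [Group G] (h : HasFactors 𝒮 G) :
    ∀ (G' : Type) [Group G'] (f : G' →* G), Function.Injective f → f.range.Normal →
      HasFactors 𝒮 G' := by
  induction h with
  | triv G =>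
    intro G' _ f hf _
    have := hf.subsingleton
    exact .triv G'
  | ext G H _ hq ih =>
    intro G' _ f hf hr
    -- restriction to `H`
    let H' : Subgroup G' := H.comap f
    let f' : H' →* H := (f.comp H'.subtype).codRestrict H fun x => x.2
    have hf' : Function.Injective f' := fun a b hab => by
      apply Subtype.ext
      apply hf
      exact congrArg Subtype.val hab
    have hr' : f'.range.Normal := by
      constructor
      rintro _ ⟨x, rfl⟩ g
      obtain ⟨z, hz⟩ := hr.conj_mem (f x) ⟨x, rfl⟩ (g : G)
      have hzH : z ∈ H' := by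
        change f z ∈ H
        rw [hz]
        exact H.mul_mem (H.mul_mem g.2 x.2) (H.inv_mem g.2)
      exact ⟨⟨z, hzH⟩, Subtype.ext hz⟩
    have hH' : HasFactors 𝒮 H' := ih H' f' hf' hr'
    have hsimple := hsim _ hq
    let q : G' →* G ⧸ H := (QuotientGroup.mk' H).comp f
    have hqn : q.range.Normal := by
      have h1 : q.range = f.range.map (QuotientGroup.mk' H) := MonoidHom.range_comp _ _
      rw [h1]
      exact hr.map _ (QuotientGroup.mk'_surjective H)
    have hker : q.ker = H' := by
      ext x
      rw [MonoidHom.mem_ker]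
      exact QuotientGroup.eq_one_iff (f x)
    rcases hqn.eq_bot_or_eq_top with h1 | h1
    · -- `G'` maps into `H`
      have h2 : ∀ x, f x ∈ H := by
        intro x
        have h3 : q x ∈ q.range := ⟨x, rfl⟩
        rw [h1, Subgroup.mem_bot] at h3
        exact (QuotientGroup.eq_one_iff (f x)).mp h3
      refine ih G' (f.codRestrict H h2) (fun a b hab => hf (congrArg Subtype.val hab)) ?_
      constructor
      rintro _ ⟨x, rfl⟩ g
      obtain ⟨z, hz⟩ := hr.conj_mem (f x) ⟨x, rfl⟩ (g : G)
      exact ⟨z, Subtype.ext hz⟩
    · have h2 : Function.Surjective q := MonoidHom.range_eq_top.mp h1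
      have e : (G' ⧸ q.ker) ≃* (G ⧸ H) := QuotientGroup.quotientKerEquivOfSurjective q h2
      have hH'' : HasFactors 𝒮 q.ker := by
        rw [hker]
        exact hH'
      exact .ext G' q.ker hH'' (hiso _ _ e.symm hq)

theorem HasFactors.of_surjective {G : Type} [Group G] (h : HasFactors 𝒮 G) :
    ∀ (G' : Type) [Group G'] (f : G →* G'), Function.Surjective f → HasFactors 𝒮 G' := by
  induction h with
  | triv G =>
    intro G' _ f hf
    have := hf.subsingleton
    exact .triv G'
  | ext G H _ hq ih =>
    intro G' _ f hf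
    have hsimple := hsim _ hq
    have hn : (H.map f).Normal := Subgroup.Normal.map inferInstance f hf
    let f' : H →* H.map f := (f.comp H.subtype).codRestrict (H.map f) fun x => ⟨x, x.2, rfl⟩
    have hf' : Function.Surjective f' := by
      rintro ⟨_, x, hx, rfl⟩
      exact ⟨⟨x, hx⟩, rfl⟩
    have hH' : HasFactors 𝒮 (H.map f) := ih _ f' hf'
    let q : G ⧸ H →* G' ⧸ H.map f := QuotientGroup.map H (H.map f) f (Subgroup.le_comap_map f H)
    have hqs : Function.Surjective q := by
      intro y
      obtain ⟨y, rfl⟩ := QuotientGroup.mk_surjective y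
      obtain ⟨x, rfl⟩ := hf y
      exact ⟨(x : G ⧸ H), rfl⟩
    rcases (inferInstance : q.ker.Normal).eq_bot_or_eq_top with h1 | h1
    · have e : (G ⧸ H) ≃* (G' ⧸ H.map f) :=
        MulEquiv.ofBijective q ⟨(MonoidHom.ker_eq_bot_iff q).mp h1, hqs⟩
      exact .ext G' (H.map f) hH' (hiso _ _ e hq)
    · have h2 : H.map f = ⊤ := by
        rw [eq_top_iff]
        intro y _
        obtain ⟨x, hx⟩ := hqs (y : G' ⧸ H.map f)
        have h3 : x ∈ q.ker := by
          rw [h1]
          exact Subgroup.mem_top x
        rw [MonoidHom.mem_ker.mp h3] at hx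
        exact (QuotientGroup.eq_one_iff y).mp hx.symm
      refine ih G' (f.comp H.subtype) ?_
      intro y
      have h3 : y ∈ H.map f := by
        rw [h2]
        exact Subgroup.mem_top y
      obtain ⟨x, hx, rfl⟩ := h3
      exact ⟨⟨x, hx⟩, rfl⟩

theorem HasFactors.congr {G G' : Type} [Group G] [Group G'] (e : G ≃* G')
    (h : HasFactors 𝒮 G) : HasFactors 𝒮 G' :=
  h.of_surjective hiso hsim G' e.toMonoidHom e.surjective

theorem HasFactors.mem_of_isSimpleGroup {G : Type} [Group G] [IsSimpleGroup G]
    (h : HasFactors 𝒮 G) : 𝒮 G := by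
  cases h with
  | triv =>
    exact absurd (inferInstance : Subsingleton G) (not_subsingleton G)
  | ext _ H _ hq =>
    have hn : H.Normal := inferInstance
    rcases hn.eq_bot_or_eq_top with h1 | h1
    · subst h1
      exact hiso _ _ (QuotientGroup.quotientBot (G := G)) hq
    · exfalso
      have h2 := hsim _ hq
      have h3 : Subsingleton (G ⧸ H) := by
        rw [h1]
        exact QuotientGroup.subsingleton_quotient_top
      exact not_subsingleton (G ⧸ H) h3

theorem HasFactors.extension {Q : Type} [Group Q] (hQ : HasFactors 𝒮 Q) :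
    ∀ (G : Type) [Group G] (f : G →* Q), Function.Surjective f → HasFactors 𝒮 f.ker →
      HasFactors 𝒮 G := by
  induction hQ with
  | triv Q =>
    intro G _ f _ hker
    have h1 : f.ker = ⊤ := by
      rw [eq_top_iff]
      intro x _
      exact Subsingleton.elim _ _
    rw [h1] at hker
    exact hker.congr hiso hsim Subgroup.topEquiv
  | ext Q H _ hq ih =>
    intro G _ f hf hker
    let G₁ : Subgroup G := H.comap f
    let f₁ : G₁ →* H := (f.comp G₁.subtype).codRestrict H fun x => x.2
    have hf₁ : Function.Surjective f₁ := by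
      rintro ⟨y, hy⟩
      obtain ⟨x, rfl⟩ := hf y
      exact ⟨⟨x, hy⟩, rfl⟩
    have hk : HasFactors 𝒮 f₁.ker := by
      let t : f.ker →* f₁.ker :=
        { toFun := fun x => ⟨⟨x, by
            change f x ∈ H
            rw [MonoidHom.mem_ker.mp x.2]
            exact H.one_mem⟩, by
            rw [MonoidHom.mem_ker]
            exact Subtype.ext (MonoidHom.mem_ker.mp x.2)⟩
          map_one' := rfl
          map_mul' := fun _ _ => rfl }
      refine hker.of_surjective hiso hsim _ t ?_
      rintro ⟨⟨x, hx⟩, hx'⟩
      exact ⟨⟨x, congrArg Subtype.val (MonoidHom.mem_ker.mp hx')⟩, rfl⟩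
    have hG₁ : HasFactors 𝒮 G₁ := ih G₁ f₁ hf₁ hk
    let q : G →* Q ⧸ H := (QuotientGroup.mk' H).comp f
    have hqs : Function.Surjective q := (QuotientGroup.mk'_surjective H).comp hf
    have hqk : q.ker = G₁ := by
      ext x
      rw [MonoidHom.mem_ker]
      exact QuotientGroup.eq_one_iff (f x)
    have e : (G ⧸ q.ker) ≃* (Q ⧸ H) := QuotientGroup.quotientKerEquivOfSurjective q hqs
    have h1 : HasFactors 𝒮 q.ker := by
      rw [hqk]
      exact hG₁
    exact .ext G q.ker h1 (hiso _ _ e.symm hq)

theorem HasFactors.pow {G : Type} [Group G] (h : HasFactors 𝒮 G) (m : ℕ) :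
    HasFactors 𝒮 (Fin m → G) := by
  induction m with
  | zero => exact .triv _
  | succ m ih =>
    let f : (Fin (m + 1) → G) →* G := Pi.evalMonoidHom _ 0
    refine h.extension hiso hsim _ f (fun x => ⟨fun _ => x, rfl⟩) ?_
    let t : (Fin m → G) →* f.ker :=
      { toFun := fun x => ⟨Fin.cons 1 x, by
          rw [MonoidHom.mem_ker]
          rfl⟩
        map_one' := by
          apply Subtype.ext
          funext i
          refine Fin.cases ?_ (fun i => ?_) i
          · rfl
          · rfl
        map_mul' := by
          intro x y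
          apply Subtype.ext
          funext i
          refine Fin.cases ?_ (fun i => ?_) i
          · exact (one_mul (1 : G)).symm
          · rfl }
    refine ih.of_surjective hiso hsim _ t ?_
    rintro ⟨x, hx⟩
    refine ⟨fun i => x i.succ, ?_⟩
    apply Subtype.ext
    funext i
    refine Fin.cases ?_ (fun i => ?_) i
    · exact (MonoidHom.mem_ker.mp hx).symm
    · rfl

/-- The induction along a normal subgroup with factors in the class. -/
theorem induct_factors {P : (E : Type) → [Group E] → Prop}
    (hP : ∀ (E F : Type) [Group E] [Group F], (E ≃* F) → P E → P F)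
    (hstep : ∀ (E : Type) [Group E] [Finite E] (N : Subgroup E) [N.Normal] (S : Type) [Group S]
      (k : ℕ), 𝒮 S → (N ≃* (Fin k → S)) → P (E ⧸ N) → P E) :
    ∀ (E : Type) [Group E] [Finite E] (N : Subgroup E) [N.Normal], HasFactors 𝒮 N →
      P (E ⧸ N) → P E := by
  suffices H : ∀ (m : ℕ) (E : Type) [Group E] [Finite E] (N : Subgroup E) [N.Normal],
      Nat.card E = m → HasFactors 𝒮 N → P (E ⧸ N) → P E from
    fun E _ _ N _ hN h => H _ E N rfl hN h
  intro m
  induction m using Nat.strong_induction_on with
  | _ m ih =>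
    intro E _ _ N _ hm hN h
    by_cases hbot : N = ⊥
    · subst hbot
      exact hP _ _ (QuotientGroup.quotientBot (G := E)) h
    · obtain ⟨M, hM, hMN, hM1, S, hS, hSs, k, ⟨φ⟩⟩ := exists_minNormal N hbot
      have h1 : HasFactors 𝒮 M := by
        refine hN.of_injective hiso hsim M (Subgroup.inclusion hMN)
          (Subgroup.inclusion_injective hMN) ?_
        constructor
        rintro _ ⟨x, rfl⟩ g
        exact ⟨⟨g * x * g⁻¹, hM.conj_mem x x.2 g⟩, rfl⟩
      have h2 : HasFactors 𝒮 S := by
        refine h1.of_injective hiso hsim S S.subtype S.subtype_injective ?_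
        rw [Subgroup.range_subtype]
        exact hS
      have h3 : 𝒮 S := h2.mem_of_isSimpleGroup hiso hsim
      refine hstep E M S k h3 φ ?_
      -- the quotient by `M`
      have hlt : Nat.card (E ⧸ M) < m := by
        rw [← hm]
        have h4 := Subgroup.card_eq_card_quotient_mul_card_subgroup M
        have h5 : 1 < Nat.card M := by
          rw [← Subgroup.one_lt_card_iff_ne_bot] at hM1
          exact hM1
        have h6 : 0 < Nat.card (E ⧸ M) := Nat.card_pos
        rw [h4]
        nlinarith
      have hn : (N.map (QuotientGroup.mk' M)).Normal :=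
        Subgroup.Normal.map inferInstance _ (QuotientGroup.mk'_surjective M)
      refine ih _ hlt (E ⧸ M) (N.map (QuotientGroup.mk' M)) rfl ?_ ?_
      · let f' : N →* N.map (QuotientGroup.mk' M) :=
          ((QuotientGroup.mk' M).comp N.subtype).codRestrict (N.map (QuotientGroup.mk' M))
            fun x => ⟨x, x.2, rfl⟩
        refine hN.of_surjective hiso hsim _ f' ?_
        rintro ⟨_, x, hx, rfl⟩
        exact ⟨⟨x, hx⟩, rfl⟩
      · exact hP _ _ (QuotientGroup.quotientQuotientEquivQuotient M N hMN).symm h

end

end MP7fC
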