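import Pool.Agent.Lib.MP_7f581e_ntC.Factors

/-!
The class of groups: composition factors of order `p`, alternating, or `PSL(2, p ^ m)`.
-/

set_option autoImplicit false

namespace MP7fC

/-- The simple groups allowed as composition factors in characteristic `p`: the group of order
`p`, the alternating groups `A_n` with `n ≥ 5`, `n ≠ 6`, and the groups `PSL(2, p ^ m)` with
`p ^ m ≥ 4`, where `m` has to be odd if `p` is odd. -/
def IsFactor (p : ℕ) (S : Type) [Group S] : Prop :=
  Nat.card S = p ∨
  (∃ n : ℕ, 5 ≤ n ∧ n ≠ 6 ∧ Nonempty (S ≃* alternatingGroup (Fin n))) ∨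
  ∃ (F : Type) (_ : Field F) (m : ℕ), Nat.card F = p ^ m ∧ 4 ≤ p ^ m ∧ (p = 2 ∨ Odd m) ∧
    Nonempty (S ≃* Matrix.ProjectiveSpecialLinearGroup (Fin 2) F)

/-- The smallest class of finite groups which contains the trivial group and is closed under
extensions whose kernel has a subnormal series with factors satisfying `IsFactor p`, under
split extensions with abelian kernel, and under quotients. -/
inductive Reach (p : ℕ) : (E : Type) → [Group E] → Prop
  /-- the trivial group -/
  | triv (E : Type) [Group E] [Subsingleton E] : Reach p E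
  /-- extensions whose kernel has the allowed composition factors -/
  | ext {E Q : Type} [Group E] [Finite E] [Group Q] (f : E →* Q) (hf : Function.Surjective f)
      (hk : HasFactors (IsFactor p) f.ker) (hQ : Reach p Q) : Reach p E
  /-- split extensions with abelian kernel -/
  | split {E Q : Type} [Group E] [Finite E] [Group Q] (f : E →* Q) (s : Q →* E)
      (hs : ∀ q, f (s q) = q) (hk : ∀ a ∈ f.ker, ∀ b ∈ f.ker, a * b = b * a)
      (hQ : Reach p Q) : Reach p E
  /-- quotients -/
  | quot {E Q : Type} [Group E] [Finite E] [Group Q] (f : E →* Q) (hf : Function.Surjective f)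
      (hE : Reach p E) : Reach p Q

theorem isFactor_congr (p : ℕ) (S T : Type) [Group S] [Group T] (e : S ≃* T)
    (h : IsFactor p S) : IsFactor p T := by
  rcases h with h | ⟨n, h5, h6, ⟨f⟩⟩ | ⟨F, _, m, h1, h2, h3, ⟨f⟩⟩
  · exact Or.inl ((Nat.card_congr e.toEquiv).symm.trans h)
  · exact Or.inr (Or.inl ⟨n, h5, h6, ⟨e.symm.trans f⟩⟩)
  · exact Or.inr (Or.inr ⟨F, _, m, h1, h2, h3, ⟨e.symm.trans f⟩⟩)

theorem isSimpleGroup_of_isFactor (p : ℕ) [Fact p.Prime] (S : Type) [Group S]
    (h : IsFactor p S) : IsSimpleGroup S := by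
  rcases h with h | ⟨n, h5, h6, ⟨f⟩⟩ | ⟨F, _, m, h1, h2, h3, ⟨f⟩⟩
  · exact isSimpleGroup_of_prime_card h
  · have h7 : IsSimpleGroup (alternatingGroup (Fin n)) :=
      alternatingGroup.isSimpleGroup (by rwa [Nat.card_fin])
    exact MulEquiv.isSimpleGroup f
  · have h7 : IsSimpleGroup (Matrix.ProjectiveSpecialLinearGroup (Fin 2) F) :=
      Matrix.ProjectiveSpecialLinearGroup.rank_two_simple (by rwa [h1])
    exact MulEquiv.isSimpleGroup f

theorem Reach.finite {p : ℕ} {E : Type} [Group E] (h : Reach p E) : Finite E := by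
  cases h with
  | triv => infer_instance
  | ext => infer_instance
  | split => infer_instance
  | quot f hf _ => exact Finite.of_surjective f hf

/-- The power of a homomorphism. -/
def powHom {E Q : Type} [Group E] [Group Q] (m : ℕ) (f : E →* Q) :
    (Fin m → E) →* (Fin m → Q) where
  toFun x := fun i => f (x i)
  map_one' := funext fun _ => map_one f
  map_mul' _ _ := funext fun _ => map_mul f _ _

theorem powHom_surjective {E Q : Type} [Group E] [Group Q] (m : ℕ) (f : E →* Q)
    (hf : Function.Surjective f) : Function.Surjective (powHom m f) := by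
  intro y
  choose x hx using fun i => hf (y i)
  exact ⟨x, funext hx⟩

/-- The kernel of the power. -/
def kerPow {E Q : Type} [Group E] [Group Q] (m : ℕ) (f : E →* Q) :
    (Fin m → f.ker) →* (powHom m f).ker where
  toFun x := ⟨fun i => (x i : E), by
    rw [MonoidHom.mem_ker]
    exact funext fun i => (x i).2⟩
  map_one' := rfl
  map_mul' _ _ := rfl

theorem kerPow_surjective {E Q : Type} [Group E] [Group Q] (m : ℕ) (f : E →* Q) :
    Function.Surjective (kerPow m f) := by
  rintro ⟨x, hx⟩
  exact ⟨fun i => ⟨x i, congrFun (MonoidHom.mem_ker.mp hx) i⟩, rfl⟩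

theorem HasFactors.kerPow {p : ℕ} [Fact p.Prime] {E Q : Type} [Group E] [Group Q] {f : E →* Q}
    (h : HasFactors (IsFactor p) f.ker) (m : ℕ) :
    HasFactors (IsFactor p) (powHom m f).ker :=
  (h.pow (isFactor_congr p) (isSimpleGroup_of_isFactor p) m).of_surjective (isFactor_congr p)
    (isSimpleGroup_of_isFactor p) _ (MP7fC.kerPow m f) (kerPow_surjective m f)

theorem Reach.pow {p : ℕ} [Fact p.Prime] {E : Type} [Group E] (h : Reach p E) (m : ℕ) :
    Reach p (Fin m → E) := by
  induction h with
  | triv E => exact .triv _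
  | ext f hf hk hQ ih => exact .ext (powHom m f) (powHom_surjective m f hf) (hk.kerPow m) ih
  | split f s hs hk hQ ih =>
    refine .split (powHom m f) (powHom m s) (fun q => funext fun i => hs (q i)) ?_ ih
    intro a ha b hb
    funext i
    exact hk (a i) (congrFun (MonoidHom.mem_ker.mp ha) i) (b i)
      (congrFun (MonoidHom.mem_ker.mp hb) i)
  | quot f hf hE ih => exact .quot (powHom m f) (powHom_surjective m f hf) ih

end MP7fC
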