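import Mathlib

/-!
Minimal normal subgroups of finite groups are powers of simple groups.
-/

set_option autoImplicit false

universe u

namespace MP7fC

/-- The internal direct product of two normal subgroups. -/
theorem sup_equiv_prod {M : Type u} [Group M] (P Q : Subgroup M) [P.Normal] [Q.Normal]
    (h : Disjoint P Q) : Nonempty ((P ⊔ Q : Subgroup M) ≃* P × Q) := by
  have hc : ∀ (p : P) (q : Q), Commute (P.subtype p) (Q.subtype q) := fun p q =>
    Subgroup.commute_of_normal_of_disjoint P Q inferInstance inferInstance h _ _ p.2 q.2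
  let φ : P × Q →* M := MonoidHom.noncommCoprod P.subtype Q.subtype hc
  have hinj : Function.Injective φ := by
    rw [MonoidHom.noncommCoprod_injective]
    refine ⟨P.subtype_injective, Q.subtype_injective, ?_⟩
    rwa [Subgroup.range_subtype, Subgroup.range_subtype]
  have hr : φ.range = P ⊔ Q := by
    rw [MonoidHom.noncommCoprod_range, Subgroup.range_subtype, Subgroup.range_subtype]
  exact ⟨((MonoidHom.ofInjective hinj).trans (MulEquiv.subgroupCongr hr)).symm⟩

theorem exists_minNormal {E : Type u} [Group E] [Finite E] (N : Subgroup E) [N.Normal]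
    (hN : N ≠ ⊥) :
    ∃ M : Subgroup E, M.Normal ∧ M ≤ N ∧ M ≠ ⊥ ∧ ∃ S : Subgroup M, S.Normal ∧ IsSimpleGroup S ∧
      ∃ k : ℕ, Nonempty (M ≃* (Fin k → S)) := by
  classical
  -- a minimal normal subgroup
  obtain ⟨M, hM⟩ := (Set.toFinite {M : Subgroup E | M.Normal ∧ M ≤ N ∧ M ≠ ⊥}).exists_minimal
    ⟨N, inferInstance, le_rfl, hN⟩
  have hMn : M.Normal := hM.prop.1
  have hMmin : ∀ Q : Subgroup E, Q.Normal → Q ≤ M → Q ≠ ⊥ → Q = M := by
    intro Q hQ hQM hQb
    exact le_antisymm hQM (hM.le_of_le ⟨hQ, hQM.trans hM.prop.2.1, hQb⟩ hQM)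
  -- a minimal normal subgroup of it
  obtain ⟨T, hT⟩ := (Set.toFinite {T : Subgroup M | T.Normal ∧ T ≠ ⊥}).exists_minimal
    ⟨⊤, inferInstance, by
      intro h
      apply hM.prop.2.2
      rw [eq_bot_iff]
      intro x hx
      have h1 : (⟨x, hx⟩ : M) ∈ (⊤ : Subgroup M) := Subgroup.mem_top _
      rw [h, Subgroup.mem_bot] at h1
      rw [Subgroup.mem_bot]
      exact congrArg Subtype.val h1⟩
  have hTn : T.Normal := hT.prop.1
  have hTb : T ≠ ⊥ := hT.prop.2
  have hTmin : ∀ Q : Subgroup M, Q.Normal → Q ≤ T → Q ≠ ⊥ → Q = T := by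
    intro Q hQ hQT hQb
    exact le_antisymm hQT (hT.le_of_le ⟨hQ, hQb⟩ hQT)
  -- its conjugates
  let c : E → (M ≃* M) := fun e => MulAut.conjNormal e
  let Te : E → Subgroup M := fun e => T.map (c e).toMonoidHom
  have hTen : ∀ e, (Te e).Normal := fun e => hTn.map _ (c e).surjective
  have hTe1 : Te 1 = T := by
    have h1 : (c 1).toMonoidHom = MonoidHom.id M := by
      ext x
      simp [c]
    change T.map (c 1).toMonoidHom = T
    rw [h1, Subgroup.map_id]
  have hTemin : ∀ (e : E) (Q : Subgroup M), Q.Normal → Q ≤ Te e → Q ≠ ⊥ → Q = Te e := by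
    intro e Q hQ hQT hQb
    have h1 : Q.comap (c e).toMonoidHom = T := by
      apply hTmin _ (hQ.comap _)
      · intro x hx
        have h2 : (c e) x ∈ Te e := hQT hx
        obtain ⟨y, hy, hyx⟩ := h2
        have h3 : y = x := (c e).injective hyx
        rwa [← h3]
      · intro h0
        apply hQb
        rw [eq_bot_iff]
        intro x hx
        obtain ⟨y, rfl⟩ := (c e).surjective x
        have h2 : y ∈ Q.comap (c e).toMonoidHom := hx
        rw [h0, Subgroup.mem_bot] at h2
        rw [h2, Subgroup.mem_bot, map_one]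
    have h2 := Subgroup.map_comap_eq_self_of_surjective (f := (c e).toMonoidHom)
      (c e).surjective Q
    rw [← h2, h1]
  have hgen : ∀ Q : Subgroup M, (∀ e, Te e ≤ Q) → Q = ⊤ := by
    intro Q hQ
    let C : Subgroup E := Subgroup.normalClosure ((fun x : M => (x : E)) '' T)
    have hC1 : C ≤ Q.map M.subtype := by
      change Subgroup.closure _ ≤ _
      rw [Subgroup.closure_le]
      intro y hy
      obtain ⟨s, ⟨t, ht, rfl⟩, hs⟩ := Group.mem_conjugatesOfSet_iff.1 hy
      obtain ⟨e, he⟩ := isConj_iff.1 hs
      refine ⟨c e t, hQ e ⟨t, ht, rfl⟩, ?_⟩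
      rw [← he]
      simp [c]
    have hC2 : C = M := by
      apply hMmin C Subgroup.normalClosure_normal
      · exact hC1.trans (Subgroup.map_subtype_le Q)
      · intro h0
        apply hTb
        rw [eq_bot_iff]
        intro x hx
        have h1 : (x : E) ∈ C := Subgroup.subset_normalClosure ⟨x, hx, rfl⟩
        rw [h0, Subgroup.mem_bot] at h1
        rw [Subgroup.mem_bot]
        exact Subtype.ext h1
    rw [eq_top_iff]
    intro x _
    have h1 : (x : E) ∈ Q.map M.subtype := hC1 (by rw [hC2]; exact x.2)
    obtain ⟨y, hy, hyx⟩ := h1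
    have h2 : y = x := Subtype.ext hyx
    rwa [← h2]
  have hTeT : ∀ e, Nonempty (Te e ≃* T) := fun e =>
    ⟨((c e).subgroupMap T).symm⟩
  refine ⟨M, hMn, hM.prop.2.1, hM.prop.2.2, T, hTn, ?_, ?_⟩
  · -- simplicity
    have hnt : Nontrivial T := (T.bot_or_nontrivial).resolve_left hTb
    refine { exists_pair_ne := hnt.exists_pair_ne, eq_bot_or_eq_top_of_normal := ?_ }
    intro U hU
    set V : Subgroup M := U.map T.subtype with hV
    have hVT : V ≤ T := Subgroup.map_subtype_le U
    have hnorm : Subgroup.normalizer (V : Set M) = ⊤ := by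
      apply hgen
      intro e x hx
      by_cases heq : Te e = T
      · rw [heq] at hx
        rw [Subgroup.mem_normalizer_iff]
        intro y
        constructor
        · rintro ⟨z, hz, rfl⟩
          refine ⟨⟨x, hx⟩ * z * ⟨x, hx⟩⁻¹, hU.conj_mem z hz _, rfl⟩
        · rintro ⟨z, hz, hzy⟩
          refine ⟨⟨x, hx⟩⁻¹ * z * ⟨x, hx⟩, ?_, ?_⟩
          · have := hU.conj_mem z hz (⟨x, hx⟩⁻¹)
            simpa using this
          · simp only [map_mul, map_inv, Subgroup.subtype_apply]
            have hzy' : (z : M) = x * y * x⁻¹ := hzy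
            rw [hzy']
            group
      · have hdis : Disjoint (Te e) T := by
          rw [disjoint_iff]
          by_contra hne
          have hn1 : (Te e ⊓ T).Normal := by
            have := hTen e
            infer_instance
          have h1 := hTmin _ hn1 inf_le_right hne
          have h2 := hTemin e _ hn1 inf_le_left hne
          exact heq (h2.symm.trans h1)
        rw [Subgroup.mem_normalizer_iff]
        intro y
        have hcomm : ∀ z, z ∈ T → x * z * x⁻¹ = z := by
          intro z hz
          have := Subgroup.commute_of_normal_of_disjoint (Te e) T (hTen e) hTn hdis x z hx hz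
          rw [this.eq, mul_inv_cancel_right]
        constructor
        · intro hy
          rw [hcomm y (hVT hy)]
          exact hy
        · intro hy
          have hyT : y ∈ T := by
            have h1 := hTn.conj_mem _ (hVT hy) x⁻¹
            have h2 : x⁻¹ * (x * y * x⁻¹) * x⁻¹⁻¹ = y := by group
            rwa [h2] at h1
          rw [hcomm y hyT] at hy
          exact hy
    have hVn : V.Normal := Subgroup.normalizer_eq_top_iff.1 hnorm
    by_cases hVb : V = ⊥
    · left
      rw [eq_bot_iff]
      intro z hz
      have h1 : (z : M) ∈ V := ⟨z, hz, rfl⟩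
      rw [hVb, Subgroup.mem_bot] at h1
      rw [Subgroup.mem_bot]
      exact Subtype.ext h1
    · right
      have h1 := hTmin V hVn hVT hVb
      rw [eq_top_iff]
      intro z _
      have h2 : (z : M) ∈ V := by rw [h1]; exact z.2
      obtain ⟨y, hy, hyz⟩ := h2
      have h3 : y = z := Subtype.ext hyz
      rwa [← h3]
  · -- a maximal normal subgroup which is a power of `T`
    obtain ⟨P, hP⟩ := (Set.toFinite {P : Subgroup M | P.Normal ∧
      ∃ k : ℕ, Nonempty (P ≃* (Fin k → T))}).exists_maximal
      ⟨⊥, inferInstance, 0, ⟨{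
        toFun := fun _ => default
        invFun := fun _ => 1
        left_inv := fun x => Subsingleton.elim _ _
        right_inv := fun x => Subsingleton.elim _ _
        map_mul' := fun _ _ => Subsingleton.elim _ _ }⟩⟩
    have hPn : P.Normal := hP.prop.1
    obtain ⟨k, ⟨φ⟩⟩ := hP.prop.2
    have hPtop : P = ⊤ := by
      apply hgen
      intro e
      by_contra hne
      have hn0 := hTen e
      have hn1 : (P ⊓ Te e).Normal := inferInstance
      have hdis : Disjoint P (Te e) := by
        rw [disjoint_iff]
        by_contra hb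
        have h1 := hTemin e _ hn1 inf_le_right hb
        apply hne
        rw [← h1]
        exact inf_le_left
      obtain ⟨ψ⟩ := sup_equiv_prod P (Te e) hdis
      obtain ⟨χ⟩ := hTeT e
      let a : (Fin k → T) × T ≃* (Fin (k + 1) → T) :=
        { toFun := fun x => Fin.snoc (α := fun _ => T) x.1 x.2
          invFun := fun x => (fun i => x i.castSucc, x (Fin.last k))
          left_inv := fun x => by ext <;> simp
          right_inv := fun x => by
            ext i
            refine Fin.lastCases ?_ (fun i => ?_) i <;> simp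
          map_mul' := fun x y => by
            ext i
            refine Fin.lastCases ?_ (fun i => ?_) i <;> simp }
      have hmem : P ⊔ Te e ∈ {P : Subgroup M | P.Normal ∧
          ∃ k : ℕ, Nonempty (P ≃* (Fin k → T))} :=
        ⟨inferInstance, k + 1, ⟨(ψ.trans (φ.prodCongr χ)).trans a⟩⟩
      have h1 := hP.le_of_ge hmem le_sup_left
      exact hne (le_sup_right.trans h1)
    refine ⟨k, ⟨?_⟩⟩
    exact (Subgroup.topEquiv.symm.trans (MulEquiv.subgroupCongr hPtop.symm)).trans φ

/-- Powers of a group of prime order are `p`-groups. -/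
theorem isPGroup_of_pi {p : ℕ} [Fact p.Prime] {M : Type*} [Group M] {S : Type*} [Group S]
    {k : ℕ} (e : M ≃* (Fin k → S)) (hS : Nat.card S = p) : IsPGroup p M := by
  have h1 : Nat.card M = p ^ k := by
    rw [Nat.card_congr e.toEquiv, Nat.card_fun, hS, Nat.card_eq_fintype_card, Fintype.card_fin]
  exact IsPGroup.of_card h1

end MP7fC
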