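import Pool.Agent.Lib.MP_7f581e_ntS.LangF
import Pool.Agent.Lib.MP_7f581e_ntS.PKerF
import Pool.Agent.Lib.MP_7f581e_ntS.Quot
import Pool.Agent.Lib.MP_7f581e_ntL.WH8
import Pool.Agent.Lib.MP_7f581e_ntS.LangB
import Pool.Agent.Lib.MP_7f581e_ntS.LangA
import Pool.Agent.Lib.MP_7f581e_ntS.Tens

/-!
Split embedding problems with abelian kernel over Hilbertian fields of characteristic `p`.
-/

set_option autoImplicit false
set_option linter.unusedSectionVars false

universe u

namespace MP7fC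

open MP7fR MP7fS

section core

/-- The ring automorphisms permuting the coordinates. -/
def permR (Γ C : Type) [Group Γ] (F : Type) [Field F] : Γ →* ((Γ × C → F) ≃+* (Γ × C → F)) where
  toFun h :=
    { toFun := fun f x => f (h⁻¹ * x.1, x.2)
      invFun := fun f x => f (h * x.1, x.2)
      left_inv := fun f => by
        funext x
        simp
      right_inv := fun f => by
        funext x
        simp
      map_mul' := fun f g => rfl
      map_add' := fun f g => rfl }
  map_one' := by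
    ext f x
    simp
  map_mul' h h' := by
    ext f x
    simp [mul_assoc]

theorem permR_apply (Γ C : Type) [Group Γ] (F : Type) [Field F] (h : Γ) (f : Γ × C → F)
    (x : Γ × C) : permR Γ C F h f x = f (h⁻¹ * x.1, x.2) := rfl

/-- The coordinates of a unit. -/
def uc {ι F : Type} [Field F] (f : (ι → F)ˣ) (i : ι) : Fˣ where
  val := f.1 i
  inv := f.2 i
  val_inv := congrFun f.3 i
  inv_val := congrFun f.4 i

theorem uc_mul {ι F : Type} [Field F] (f g : (ι → F)ˣ) (i : ι) : uc (f * g) i = uc f i * uc g i :=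
  Units.ext rfl

theorem uc_one {ι F : Type} [Field F] (i : ι) : uc (1 : (ι → F)ˣ) i = 1 := Units.ext rfl

/-- The unit with given coordinates. -/
def ucm {ι F : Type} [Field F] (f : ι → Fˣ) : (ι → F)ˣ where
  val i := f i
  inv i := (f i)⁻¹
  val_inv := by
    funext i
    simp
  inv_val := by
    funext i
    simp

theorem uc_ucm {ι F : Type} [Field F] (f : ι → Fˣ) (i : ι) : uc (ucm f) i = f i := Units.ext rfl

theorem exists_psi {C : Type} [CommGroup C] [Finite C] {Γ : Type} [Group Γ] [Finite Γ]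
    (α : Γ →* MulAut C) {F : Type} [Field F]
    (hχ : ∀ c : C, ∃ (χ : Fˣ →* C) (g : Fˣ), χ g = c) :
    ∃ ψ : (Γ × C → F)ˣ →* C, Function.Surjective ψ ∧
      ∀ (h : Γ) (f : (Γ × C → F)ˣ), ψ (uact (permR Γ C F) h f) = α h (ψ f) := by
  classical
  letI := Fintype.ofFinite (Γ × C)
  choose χ g hg using hχ
  refine ⟨{ toFun := fun f => ∏ x : Γ × C, α x.1 (χ x.2 (uc f x))
            map_one' := by simp [uc_one]
            map_mul' := fun f g => by simp [uc_mul, Finset.prod_mul_distrib] }, ?_, ?_⟩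
  · intro c
    refine ⟨ucm (Pi.mulSingle (1, c) (g c)), ?_⟩
    change ∏ x : Γ × C, α x.1 (χ x.2 (uc (ucm (Pi.mulSingle (1, c) (g c))) x)) = c
    rw [Finset.prod_eq_single (1, c)]
    · rw [uc_ucm, Pi.mulSingle_eq_same, hg, map_one]
      rfl
    · intro x _ hx
      rw [uc_ucm, Pi.mulSingle_eq_of_ne hx, map_one, map_one]
    · intro h
      exact absurd (Finset.mem_univ _) h
  · intro h f
    change ∏ x : Γ × C, α x.1 (χ x.2 (uc (uact (permR Γ C F) h f) x)) =
      α h (∏ x : Γ × C, α x.1 (χ x.2 (uc f x)))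
    rw [map_prod]
    have h1 : ∀ x : Γ × C, uc (uact (permR Γ C F) h f) x = uc f (h⁻¹ * x.1, x.2) :=
      fun x => Units.ext rfl
    let e : Γ × C ≃ Γ × C := (Equiv.mulLeft h).prodCongr (Equiv.refl C)
    rw [← e.prod_comp]
    refine Finset.prod_congr rfl fun x _ => ?_
    rw [h1]
    change α (h * x.1) (χ x.2 (uc f (h⁻¹ * (h * x.1), x.2))) = _
    rw [inv_mul_cancel_left, map_mul]
    rfl

/-- Elements of order prime to `p` are hit by the multiplicative group of a finite field. -/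
theorem exists_chi {p : ℕ} [Fact p.Prime] {C : Type} [CommGroup C] [Finite C] (hC : (Nat.card C).Coprime p) :
    ∃ (F : Type) (_ : Field F) (_ : Finite F) (_ : Algebra (ZMod p) F),
      ∀ c : C, ∃ (χ : Fˣ →* C) (g : Fˣ), χ g = c := by
  have hn : Nat.card C ≠ 0 := Nat.card_pos.ne'
  have hm : (Nat.card C).totient ≠ 0 := (Nat.totient_pos.mpr Nat.card_pos).ne'
  refine ⟨GaloisField p (Nat.card C).totient, inferInstance, inferInstance, inferInstance,
    fun c => ?_⟩
  obtain ⟨g, hg⟩ := IsCyclic.exists_generator (α := (GaloisField p (Nat.card C).totient)ˣ)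
  have hcard : Nat.card (GaloisField p (Nat.card C).totient) = p ^ (Nat.card C).totient :=
    GaloisField.card p _ hm
  have hcu : Nat.card (GaloisField p (Nat.card C).totient)ˣ = p ^ (Nat.card C).totient - 1 := by
    rw [Nat.card_units, hcard]
  have hord : orderOf c ∣ orderOf g := by
    have h1 : orderOf g = Nat.card (GaloisField p (Nat.card C).totient)ˣ :=
      orderOf_eq_card_of_forall_mem_zpowers hg
    rw [h1, hcu]
    refine (orderOf_dvd_natCard c).trans ?_
    have h2 : 1 ≡ p ^ (Nat.card C).totient [MOD Nat.card C] :=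
      (Nat.ModEq.pow_totient hC.symm).symm
    exact (Nat.modEq_iff_dvd' (Nat.one_le_pow _ _ (Fact.out : p.Prime).pos)).mp h2
  exact ⟨monoidHomOfForallMemZpowers hg hord, g, monoidHomOfForallMemZpowers_apply_gen hg hord⟩

/-- The case of a kernel of order prime to `p`. -/
theorem step_split_prime {p : ℕ} [Fact p.Prime] {E : Type} [Group E] [Finite E]
    {K : Type u} [Field K] [CharP K p] (hK : IsHilbertian K)
    (A : Subgroup E) [A.Normal] (hA : ∀ a b : A, a * b = b * a)
    (hAp : (Nat.card A).Coprime p) (H : Subgroup E) (hc : A.IsComplement' H)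
    (h : Occurs H K) : Occurs E K := by
  letI : CommGroup A := { (inferInstance : Group A) with mul_comm := hA }
  obtain ⟨F, _, _, _, hχ⟩ := exists_chi (p := p) (C := A) hAp
  let α : H →* MulAut A := (MulAut.conjNormal (H := A)).comp H.subtype
  obtain ⟨ψ, hψ, hψ2⟩ := exists_psi (Γ := H) (F := F) α hχ
  have h1 := lang_occurs (p := p) h (permR H A F)
  have hfin : Finite ((H × A → F)ˣ ⋊[uact (permR H A F)] H) :=
    Finite.of_equiv _ SemidirectProduct.equivProd.symm
  have h2 := MP7fL.occurs_of_mv_of_isHilbertian hK h1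
  have hcomm : ∀ g : H, (A.subtype.comp ψ).comp (uact (permR H A F) g).toMonoidHom =
      (MulAut.conj (H.subtype g)).toMonoidHom.comp (A.subtype.comp ψ) := by
    intro g
    ext x
    change ((ψ (uact (permR H A F) g x) : A) : E) = g * (ψ x : E) * (g : E)⁻¹
    rw [hψ2]
    rfl
  refine occurs_of_surjective h2 (SemidirectProduct.lift (A.subtype.comp ψ) H.subtype hcomm) ?_
  intro g
  obtain ⟨⟨a, b⟩, hab⟩ := hc.2 g
  obtain ⟨x, hx⟩ := hψ a
  refine ⟨⟨x, b⟩, ?_⟩
  change ((ψ x : A) : E) * (b : E) = g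
  rw [hx]
  exact hab

end core

section final

/-- Split embedding problems with abelian kernel. -/
theorem step_split {p : ℕ} [Fact p.Prime] {K : Type u} [Field K] [CharP K p] (hK : IsHilbertian K) {E : Type} [Group E] [Finite E]
    (A : Subgroup E) [A.Normal] (hA : ∀ a b : A, a * b = b * a) (H : Subgroup E)
    (hc : A.IsComplement' H) (h : Occurs (E ⧸ A) K) : Occurs E K := by
  have hcA : ∀ a ∈ A, ∀ b ∈ A, a * b = b * a := fun a ha b hb =>
    congrArg Subtype.val (hA ⟨a, ha⟩ ⟨b, hb⟩)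
  obtain ⟨k, m, hm, hcard⟩ : ∃ k m, ¬ p ∣ m ∧ Nat.card A = p ^ k * m :=
    Nat.exists_eq_pow_mul_and_not_dvd Nat.card_pos.ne' p (Fact.out : p.Prime).ne_one
  have hcop : (p ^ k).Coprime m :=
    Nat.Coprime.pow_left k (((Fact.out : p.Prime).coprime_iff_not_dvd).mpr hm)
  -- the two parts of the kernel
  have key : ∀ n : ℕ, ∃ B : Subgroup E, B.Normal ∧ ∀ a, a ∈ B ↔ a ∈ A ∧ a ^ n = 1 := by
    intro n
    refine ⟨{ carrier := {a | a ∈ A ∧ a ^ n = 1}
              one_mem' := ⟨A.one_mem, one_pow n⟩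
              mul_mem' := ?_
              inv_mem' := ?_ }, ⟨?_⟩, fun a => Iff.rfl⟩
    · rintro a b ⟨ha, ha'⟩ ⟨hb, hb'⟩
      refine ⟨A.mul_mem ha hb, ?_⟩
      have : Commute a b := hcA a ha b hb
      rw [this.mul_pow, ha', hb', one_mul]
    · rintro a ⟨ha, ha'⟩
      exact ⟨A.inv_mem ha, by rw [inv_pow, ha', inv_one]⟩
    · rintro a ⟨ha, ha'⟩ g
      refine ⟨Subgroup.Normal.conj_mem inferInstance a ha g, ?_⟩
      rw [conj_pow, ha', mul_one, mul_inv_cancel]
  obtain ⟨A1, hA1n, hA1⟩ := key m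
  obtain ⟨P, hPn, hP⟩ := key (p ^ k)
  have hdisj : ∀ a, a ∈ A1 → a ∈ P → a = 1 := by
    intro a h1 h2
    have h3 : orderOf a ∣ m := orderOf_dvd_of_pow_eq_one ((hA1 a).mp h1).2
    have h4 : orderOf a ∣ p ^ k := orderOf_dvd_of_pow_eq_one ((hP a).mp h2).2
    have h5 : orderOf a ∣ 1 := by
      rw [← hcop.gcd_eq_one]
      exact Nat.dvd_gcd h4 h3
    exact orderOf_eq_one_iff.mp (Nat.dvd_one.mp h5)
  have hpow : ∀ a ∈ A, a ^ (p ^ k * m) = 1 := by
    intro a ha
    have h1 : (⟨a, ha⟩ : A) ^ Nat.card A = 1 := pow_card_eq_one'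
    rw [hcard] at h1
    exact congrArg Subtype.val h1
  have hdec : ∀ a ∈ A, ∃ x ∈ A1, ∃ y ∈ P, a = x * y := by
    intro a ha
    have hb : ((p ^ k : ℕ) : ℤ) * (p ^ k).gcdA m + (m : ℤ) * (p ^ k).gcdB m = 1 := by
      rw [← Nat.gcd_eq_gcd_ab, hcop.gcd_eq_one]
      rfl
    refine ⟨a ^ (((p ^ k : ℕ) : ℤ) * (p ^ k).gcdA m), (hA1 _).mpr ⟨A.zpow_mem ha _, ?_⟩,
      a ^ ((m : ℤ) * (p ^ k).gcdB m), (hP _).mpr ⟨A.zpow_mem ha _, ?_⟩, ?_⟩
    · rw [← zpow_natCast, ← zpow_mul]
      have : ((p ^ k : ℕ) : ℤ) * (p ^ k).gcdA m * (m : ℤ) =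
          ((p ^ k * m : ℕ) : ℤ) * (p ^ k).gcdA m := by
        push_cast
        ring
      rw [this, zpow_mul, zpow_natCast, hpow a ha, one_zpow]
    · rw [← zpow_natCast, ← zpow_mul]
      have : (m : ℤ) * (p ^ k).gcdB m * ((p ^ k : ℕ) : ℤ) =
          ((p ^ k * m : ℕ) : ℤ) * (p ^ k).gcdB m := by
        push_cast
        ring
      rw [this, zpow_mul, zpow_natCast, hpow a ha, one_zpow]
    · rw [← zpow_add, hb, zpow_one]
  have hA1A : A1 ≤ A := fun a ha => ((hA1 a).mp ha).1
  have hPA : P ≤ A := fun a ha => ((hP a).mp ha).1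
  -- the quotient by the prime-to-`p` part
  have hq : Occurs (E ⧸ A1) K := by
    let N : Subgroup (E ⧸ A1) := A.map (QuotientGroup.mk' A1)
    have hNn : N.Normal := Subgroup.Normal.map inferInstance _ (QuotientGroup.mk'_surjective A1)
    have hN : IsPGroup p N := by
      rintro ⟨x, hx⟩
      obtain ⟨a, ha, rfl⟩ := hx
      refine ⟨k, Subtype.ext ?_⟩
      change ((QuotientGroup.mk' A1) a) ^ p ^ k = 1
      rw [← map_pow]
      refine (QuotientGroup.eq_one_iff _).mpr ((hA1 _).mpr ⟨A.pow_mem ha _, ?_⟩)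
      rw [← pow_mul, hpow a ha]
    have e : ((E ⧸ A1) ⧸ N) ≃* E ⧸ A := QuotientGroup.quotientQuotientEquivQuotient A1 A hA1A
    exact occurs_of_pKernel_hilbertian p K hK N hN
      (occurs_of_surjective h e.symm.toMonoidHom e.symm.surjective)
  -- the complement
  have hd : Disjoint A H := hc.disjoint
  have hc' : A1.IsComplement' (P ⊔ H) := by
    apply Subgroup.isComplement'_of_disjoint_and_mul_eq_univ
    · rw [Subgroup.disjoint_def]
      intro x hx1 hx2
      rw [Subgroup.mem_sup_of_normal_left] at hx2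
      obtain ⟨y, hy, z, hz, rfl⟩ := hx2
      have hzA : z ∈ A := by
        have : z = y⁻¹ * (y * z) := by group
        rw [this]
        exact A.mul_mem (A.inv_mem (hPA hy)) (hA1A hx1)
      have hz1 : z = 1 := (Subgroup.disjoint_def.mp hd) hzA hz
      rw [hz1, mul_one] at hx1 ⊢
      exact hdisj y hx1 hy
    · rw [Set.eq_univ_iff_forall]
      intro g
      obtain ⟨⟨a, b⟩, hab⟩ := hc.2 g
      obtain ⟨x, hx, y, hy, hxy⟩ := hdec a a.2
      refine Set.mem_mul.mpr ⟨x, hx, y * b, ?_, ?_⟩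
      · exact (P ⊔ H).mul_mem (Subgroup.mem_sup_left hy) (Subgroup.mem_sup_right b.2)
      · rw [← mul_assoc, ← hxy]
        exact hab
  have hA1c : (Nat.card A1).Coprime p := by
    rw [Nat.coprime_comm, (Fact.out : p.Prime).coprime_iff_not_dvd]
    intro hdvd
    obtain ⟨x, hx⟩ := exists_prime_orderOf_dvd_card' (G := A1) p hdvd
    have h1 : orderOf (x : E) = p := by
      rw [Subgroup.orderOf_coe, hx]
    have h2 : orderOf (x : E) ∣ m := orderOf_dvd_of_pow_eq_one ((hA1 _).mp x.2).2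
    rw [h1] at h2
    exact hm h2
  have hH : Occurs ((P ⊔ H : Subgroup E)) K := by
    have e : (P ⊔ H : Subgroup E) ≃* E ⧸ A1 := by
      refine MulEquiv.ofBijective ((QuotientGroup.mk' A1).comp (Subgroup.subtype _)) ⟨?_, ?_⟩
      · rw [injective_iff_map_eq_one]
        rintro ⟨x, hx⟩ h1
        have h2 : x ∈ A1 := (QuotientGroup.eq_one_iff x).mp h1
        exact Subtype.ext ((Subgroup.disjoint_def.mp hc'.disjoint) h2 hx)
      · intro q
        obtain ⟨g, rfl⟩ := QuotientGroup.mk'_surjective A1 q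
        obtain ⟨⟨a, b⟩, hab⟩ := hc'.2 g
        refine ⟨b, ?_⟩
        have hab' : (a : E) * b = g := hab
        change (QuotientGroup.mk' A1) (b : E) = _
        rw [← hab', map_mul]
        have : (QuotientGroup.mk' A1) (a : E) = 1 := (QuotientGroup.eq_one_iff _).mpr a.2
        rw [this, one_mul]
    exact occurs_of_surjective hq e.symm.toMonoidHom e.symm.surjective
  exact step_split_prime hK A1 (fun a b => Subtype.ext (hcA a (hA1A a.2) b (hA1A b.2))) hA1c
    (P ⊔ H) hc' hH

end final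

end MP7fC
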